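import Pool.Agent.W394.BQN.Stm

set_option autoImplicit false

open Polynomial

noncomputable section

namespace Pool.Agent.W771.BQN

open Pool.Agent.W394.BQN BQ

/-- the reduction modulo the distinguished element is a polynomial ring over `K` -/
theorem tower_red' (B : Type) [CommRing B] (π : B) (K : Type) [CommRing K] (q : B →+* K)
    (hq : Function.Surjective q) (hk : ∀ c, q c = 0 ↔ π ∣ c) (n : ℕ) :
    ∃ r : (tower B π n).C →+* MvPolynomial (Fin n) K,
      Function.Surjective r ∧ (∀ c, r c = 0 ↔ (tower B π n).u ∣ c) ∧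
      ∀ b, r ((tower B π n).j b) = MvPolynomial.C (q b) := by
  induction n with
  | zero =>
    refine ⟨(MvPolynomial.C (σ := Fin 0)).comp q, ?_, ?_, ?_⟩
    · exact (MvPolynomial.C_surjective (Fin 0)).comp hq
    · intro c
      show MvPolynomial.C (q c) = 0 ↔ π ∣ c
      rw [← hk c]
      exact MvPolynomial.C_eq_zero
    · intro b
      rfl
  | succ n ih =>
    obtain ⟨r, h1, h2, h3⟩ := ih
    have hr : r (tower B π n).u = 0 := (h2 _).2 dvd_rfl
    let ρ := Node.ρy (tower B π n).u r hr
    have ρj : ∀ c, ρ (Node.j (tower B π n).u c) = Polynomial.C (r c) :=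
      fun c => Node.lift_j _ _ _ _ _ _
    refine ⟨(MvPolynomial.finSuccEquiv K n).symm.toRingEquiv.toRingHom.comp ρ, ?_, ?_, ?_⟩
    · exact (MvPolynomial.finSuccEquiv K n).symm.surjective.comp (Node.ρy_surjective _ r hr h1)
    · intro c
      have e := Node.ρy_eq_zero (tower B π n).u r h2 hr c
      show (MvPolynomial.finSuccEquiv K n).symm (ρ c) = 0 ↔ Node.y (tower B π n).u ∣ c
      rw [← e]
      exact (map_eq_zero_iff _ (MvPolynomial.finSuccEquiv K n).symm.injective)
    · intro b
      show (MvPolynomial.finSuccEquiv K n).symm (ρ (Node.j (tower B π n).u ((tower B π n).j b))) =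
        MvPolynomial.C (q b)
      have e2 : MvPolynomial.finSuccEquiv K n (MvPolynomial.C (q b)) =
          Polynomial.C (MvPolynomial.C (q b)) := I.finC (q b)
      rw [ρj, h3, ← e2, AlgEquiv.symm_apply_apply]

/-- a polynomial ring in one variable as `MvPolynomial` -/
theorem base_poly (V : Type) [CommRing V] :
    ∃ (k : ℕ) (e : MvPolynomial (Fin k) V ≃+* V[X]), ∀ v, e (MvPolynomial.C v) = C v := by
  refine ⟨1, (MvPolynomial.finSuccEquiv V 0).toRingEquiv.trans
    (Polynomial.mapEquiv (MvPolynomial.isEmptyRingEquiv V (Fin 0))), ?_⟩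
  intro v
  show Polynomial.mapEquiv (MvPolynomial.isEmptyRingEquiv V (Fin 0))
    (MvPolynomial.finSuccEquiv V 0 (MvPolynomial.C v)) = C v
  have e1 : MvPolynomial.finSuccEquiv V 0 (MvPolynomial.C v) =
      Polynomial.C (MvPolynomial.C v) := I.finC v
  rw [e1]
  show (Polynomial.C (MvPolynomial.C v)).map
    (MvPolynomial.isEmptyRingEquiv V (Fin 0) : MvPolynomial (Fin 0) V →+* V) = C v
  rw [Polynomial.map_C]
  congr 1
  exact (MvPolynomial.isEmptyRingEquiv V (Fin 0)).apply_symm_apply v

theorem good_tower (V : Type) [CommRing V] [IsDomain V] (u : V[X]) (hu : u ≠ 0)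
    (W : Type) [CommRing W] [IsDomain W] [IsPrincipalIdealRing W] (hW : E2T W)
    (i : V →+* W) (hi : i.Finite) (r : V[X] →+* W) (hr : Function.Surjective r)
    (hk : ∀ c, r c = 0 ↔ u ∣ c) (hri : ∀ v, r (C v) = i v) (n : ℕ) :
    GoodN n V (tower V[X] u n).C ((tower V[X] u n).j.comp C) := by
  have hp : Prime u := by
    refine ⟨hu, ?_, ?_⟩
    · intro h
      have h1 : r 1 = 0 := (hk 1).2 h.dvd
      rw [map_one] at h1
      exact one_ne_zero h1
    · intro a b hab
      have h1 : r a * r b = 0 := by rw [← map_mul]; exact (hk _).2 hab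
      rcases mul_eq_zero.1 h1 with h | h
      · exact Or.inl ((hk a).1 h)
      · exact Or.inr ((hk b).1 h)
  induction n with
  | zero =>
    obtain ⟨k, e, he⟩ := base_poly V
    exact ⟨k, e, he⟩
  | succ n ih =>
    refine ⟨(tower V[X] u n).C, inferInstance, (tower V[X] u n).j.comp C, (tower V[X] u n).u,
      RingEquiv.refl _, ih, ?_, ?_⟩
    · refine ⟨(tower_domain V[X] u hp n).2, ?_⟩
      obtain ⟨ρ, h1, h2, h3⟩ := tower_red' V[X] u W r hr hk n
      refine ⟨W, inferInstance, inferInstance, inferInstance, i, n, ρ, hW, hi, h1, h2, ?_⟩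
      intro v
      show ρ ((tower V[X] u n).j (C v)) = _
      rw [h3, hri]
    · intro v
      rfl

/-- transport of `GoodN` along an isomorphism -/
theorem good_equiv (V : Type) [CommRing V] (D D' : Type) [CommRing D] [CommRing D'] (j : V →+* D)
    (e : D ≃+* D') (n : ℕ) (h : GoodN n V D j) : GoodN n V D' ((e : D →+* D').comp j) := by
  cases n with
  | zero =>
    obtain ⟨k, f, hf⟩ := h
    refine ⟨k, f.trans e, fun v => ?_⟩
    show e (f (MvPolynomial.C v)) = e (j v)
    rw [hf]
  | succ n =>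
    obtain ⟨C, hC, j₀, u, f, h1, h2, h3⟩ := h
    refine ⟨C, hC, j₀, u, f.trans e, h1, h2, fun v => ?_⟩
    show e (f (Node.j u (j₀ v))) = e (j v)
    rw [h3]

theorem t_TOW : S_TOW := by
  intro V _ _ _ u hu W _ _ _ hW i hi r hr hk hri n
  obtain ⟨e, -, -⟩ := Q.strong V[X] u n
  exact ⟨_, good_equiv V _ _ _ e n (good_tower V u hu W hW i hi r hr hk hri n)⟩

end Pool.Agent.W771.BQN
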